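import Pool.Agent.Lib.helper3.MM

/-! Contracting boxes for the min-max recursion, checked numerically for small degree. -/

open Filter Topology Set

namespace Pool.Agent.H.MP_63799c_pr

open Pool.Agent.Lib.helper3.MM

def tab (l : List ℕ) (k : ℤ) : ℚ := (l.getD (min (k + 4).toNat 8) 0 : ℚ) / 2 ^ 30

def q (d : ℕ) (l : List ℕ) (k : ℤ) : ℚ :=
  1 - (1 - (tab l (k - 1) + tab l k) / 2) ^ d / 2 - (1 - (tab l k + tab l (k + 1)) / 2) ^ d / 2

def R : List ℤ := [-5, -4, -3, -2, -1, 0, 1, 2, 3, 4, 5]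

def inb (l : List ℕ) : Bool := R.all fun k => tab l k ≤ 1
def up (d : ℕ) (u v : List ℕ) : Bool := R.all fun k => q d u k ^ d ≤ tab v k
def dn (d : ℕ) (u v : List ℕ) : Bool := R.all fun k => tab v k ≤ q d u k ^ d
def le (u v : List ℕ) : Bool := R.all fun k => tab u k ≤ tab v k
def nu (d : ℕ) (u : List ℕ) : List ℕ :=
  ([-4, -3, -2, -1, 0, 1, 2, 3].map fun k => ⌈q d u k ^ d * 2 ^ 30⌉.toNat) ++ [2 ^ 30]
def nl (d : ℕ) (u : List ℕ) : List ℕ :=
  0 :: [-3, -2, -1, 0, 1, 2, 3, 4].map fun k => ⌊q d u k ^ d * 2 ^ 30⌋.toNat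
def con (d : ℕ) (w u l : List ℕ) : Bool := R.all fun k => 1 ≤ tab w k ∧ tab w k ≤ 200 ∧
  ((tab w (k - 1) + tab w k) / 2 * d * (1 - (tab l (k - 1) + tab l k) / 2) ^ (d - 1) +
    (tab w k + tab w (k + 1)) / 2 * d * (1 - (tab l k + tab l (k + 1)) / 2) ^ (d - 1)) / 2 * d *
    q d u k ^ (d - 1) ≤ 199 / 200 * tab w k

def force : List ℕ → (List ℕ → Bool) → Bool
  | [], k => k []
  | 0 :: l, k => force l fun m => k (0 :: m)
  | (n + 1) :: l, k => force l fun m => k ((n + 1) :: m)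

lemma force_eq (l : List ℕ) : ∀ k, force l k = k l := by
  induction l with
  | nil => exact fun _ => rfl
  | cons x l ih => intro k; cases x <;> simp only [force, ih]

def run (d : ℕ) (w : List ℕ) : ℕ → List ℕ → List ℕ → Bool
  | 0, u, l => inb u && inb l && up d u u && dn d l l && con d w u l
  | n + 1, u, l => force (nu d u) fun u' => force (nl d l) fun l' =>
      inb u && inb l && up d u u' && dn d l l' && run d w n u' l'

def f0 : List ℕ := [0, 0, 0, 0, 2 ^ 30, 2 ^ 30, 2 ^ 30, 2 ^ 30, 2 ^ 30]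

def W (d : ℕ) : List ℕ := (if d = 3 then [1, 1, 4, 117, 157, 6, 1, 1, 1] else
  if d = 4 then [1, 1, 1, 13, 22, 1, 1, 1, 1] else [1, 1, 1, 4, 5, 1, 1, 1, 1]).map (· * 2 ^ 30)

def chk (d : ℕ) : Bool := force (List.zipWith max f0 (nu d f0)) fun u =>
  force (List.zipWith min f0 (nl d f0)) fun l =>
    le f0 u && le l f0 && up d f0 u && dn d f0 l && run d (W d) (if d = 3 then 80 else 6) u l

lemma chk3 : chk 3 = true := by decide +kernel
lemma chk4 : ∀ d ∈ [4, 5, 6, 7, 8, 9], chk d = true := by decide +kernel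
lemma chk5 : ∀ d ∈ [10, 11, 12, 13, 14], chk d = true := by decide +kernel

end Pool.Agent.H.MP_63799c_pr
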