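import Pool.Agent.H.MP_63799c_pr.A

/-! Geometric merging of the two extreme boundary laws, for every degree at least three. -/

open Filter Topology Set

namespace Pool.Agent.H.MP_63799c_pr

open Pool.Agent.Lib.helper3.MM

variable {d : ℕ} {F G : ℤ → ℝ}

/-- the two orbits merge geometrically -/
def Mer (d : ℕ) (F G : ℤ → ℝ) : Prop :=
  ∃ (N : ℕ) (C r : ℝ), 0 ≤ r ∧ r < 1 ∧ ∀ n k, |(Ψ d)^[n + N] F k - (Ψ d)^[n + N] G k| ≤ C * r ^ n

lemma Mer.step (h : Mer d (Ψ d F) (Ψ d G)) : Mer d F G :=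
  let ⟨N, C, r, a, b, c⟩ := h
  ⟨N + 1, C, r, a, b, c⟩

lemma mer {L U w : ℤ → ℝ} (hF : I F) (hG : I G) (hL : I L) (hU : I U) (l1 : L ≤ F) (l2 : L ≤ G)
    (u1 : F ≤ U) (u2 : G ≤ U) (hl : L ≤ Ψ d L) (hu : Ψ d U ≤ U) {C r : ℝ} (r0 : 0 ≤ r) (r1 : r < 1)
    (h : ∀ k, 1 ≤ w k ∧ w k ≤ C ∧ ((w (k - 1) + w k) / 2 * d * (1 - (L (k - 1) + L k) / 2) ^ (d - 1) +
        (w k + w (k + 1)) / 2 * d * (1 - (L k + L (k + 1)) / 2) ^ (d - 1)) / 2 * d *
        Q d ((U (k - 1) + U k) / 2) ((U k + U (k + 1)) / 2) ^ (d - 1) ≤ r * w k) : Mer d F G := by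
  have b : ∀ {F}, I F → L ≤ F → F ≤ U → ∀ n, L ≤ (Ψ d)^[n] F ∧ (Ψ d)^[n] F ≤ U := fun hF l u n => by
    induction n with
    | zero => exact ⟨l, u⟩
    | succ n ih =>
      rw [Function.iterate_succ_apply']
      exact ⟨hl.trans (mono' hL (hF.iter n) ih.1), (mono' (hF.iter n) hU ih.2).trans hu⟩
  have : ∀ n k, |(Ψ d)^[n] F k - (Ψ d)^[n] G k| ≤ r ^ n * w k := fun n => by
    induction n with
    | zero => exact fun k => abs_le.2 ⟨by simp; linarith [hF k, hG k, h k], by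
        simp; linarith [hF k, hG k, h k]⟩
    | succ n ih =>
      intro k
      simp only [Function.iterate_succ_apply']
      refine (box (hF.iter n) (hG.iter n) hU (b hF l1 u1 n).1 (b hG l2 u2 n).1 (b hF l1 u1 n).2
        (b hG l2 u2 n).2 ih k).trans ?_
      rw [pow_succ, mul_assoc (r ^ n)]
      exact mul_le_mul_of_nonneg_left (h k).2.2 (pow_nonneg r0 n)
  exact ⟨0, C, r, r0, r1, fun n k => (this n k).trans (by
    rw [mul_comm]; exact mul_le_mul_of_nonneg_right (h k).2.1 (pow_nonneg r0 n))⟩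

noncomputable def tb (l : List ℕ) (k : ℤ) : ℝ := tab l k

lemma clamp (k : ℤ) : ∃ j ∈ R, ∀ l, tab l (k - 1) = tab l (j - 1) ∧ tab l k = tab l j ∧
    tab l (k + 1) = tab l (j + 1) := by
  refine ⟨max (-5) (min k 5), by simp only [R, List.mem_cons]; omega, fun l => ⟨?_, ?_, ?_⟩⟩ <;>
    unfold tab <;> congr 3 <;> omega

lemma Q_tb (l : List ℕ) (k : ℤ) :
    Q d ((tb l (k - 1) + tb l k) / 2) ((tb l k + tb l (k + 1)) / 2) = q d l k := by
  simp [Q, q, tb]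

lemma inb_I {l : List ℕ} (h : inb l = true) : I (tb l) := fun k => by
  obtain ⟨j, hj, e⟩ := clamp k
  have := of_decide_eq_true (List.all_eq_true.1 h j hj)
  rw [← (e l).2.1] at this
  exact ⟨Rat.cast_nonneg.2 (by unfold tab; positivity), by unfold tb; exact_mod_cast this⟩

lemma q_eq {k j : ℤ} {l : List ℕ} (e : tab l (k - 1) = tab l (j - 1) ∧ tab l k = tab l j ∧
    tab l (k + 1) = tab l (j + 1)) : q d l k = q d l j := by rw [q, q, e.1, e.2.1, e.2.2]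

lemma up_le {u v : List ℕ} (h : up d u v = true) : Ψ d (tb u) ≤ tb v := fun k => by
  obtain ⟨j, hj, e⟩ := clamp k
  have := of_decide_eq_true (List.all_eq_true.1 h j hj)
  rw [← (e v).2.1, ← q_eq (e u)] at this
  rw [Ψ, Q_tb, tb]; exact_mod_cast this

lemma dn_le {u v : List ℕ} (h : dn d u v = true) : tb v ≤ Ψ d (tb u) := fun k => by
  obtain ⟨j, hj, e⟩ := clamp k
  have := of_decide_eq_true (List.all_eq_true.1 h j hj)
  rw [← (e v).2.1, ← q_eq (e u)] at this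
  show tb v k ≤ Ψ d (tb u) k
  rw [Ψ, Q_tb, tb]; exact_mod_cast this

lemma le_le {u v : List ℕ} (h : le u v = true) : tb u ≤ tb v := fun k => by
  obtain ⟨j, hj, e⟩ := clamp k
  have := of_decide_eq_true (List.all_eq_true.1 h j hj)
  rw [← (e v).2.1, ← (e u).2.1] at this
  exact Rat.cast_le.2 this

lemma run_mer {w : List ℕ} (n : ℕ) : ∀ {u l : List ℕ} {F G : ℤ → ℝ}, run d w n u l = true → I F → I G →
    tb l ≤ F → tb l ≤ G → F ≤ tb u → G ≤ tb u → Mer d F G := by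
  induction n with
  | zero =>
    intro u l F G h hF hG l1 l2 u1 u2
    simp only [run, Bool.and_eq_true] at h
    obtain ⟨⟨⟨⟨a, b⟩, c⟩, e⟩, f⟩ := h
    refine mer (w := tb w) (C := 200) (r := 199 / 200) hF hG (inb_I b) (inb_I a) l1 l2 u1 u2 (dn_le e)
      (up_le c) (by norm_num) (by norm_num) fun k => ?_
    obtain ⟨j, hj, g⟩ := clamp k
    have := of_decide_eq_true (List.all_eq_true.1 f j hj)
    rw [← q_eq (g u), ← (g w).1, ← (g w).2.1, ← (g w).2.2, ← (g l).1, ← (g l).2.1, ← (g l).2.2] at this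
    rw [Q_tb]
    unfold tb
    exact ⟨by exact_mod_cast this.1, by exact_mod_cast this.2.1, by
      have := (Rat.cast_le (K := ℝ)).2 this.2.2
      push_cast at this
      exact this⟩
  | succ n ih =>
    intro u l F G h hF hG l1 l2 u1 u2
    simp only [run, force_eq, Bool.and_eq_true] at h
    obtain ⟨⟨⟨⟨a, b⟩, c⟩, e⟩, f⟩ := h
    exact (ih f hF.Ψ hG.Ψ ((dn_le e).trans (mono' (inb_I b) hF l1))
      ((dn_le e).trans (mono' (inb_I b) hG l2)) ((mono' hF (inb_I a) u1).trans (up_le c))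
      ((mono' hG (inb_I a) u2).trans (up_le c))).step

noncomputable def F0 (k : ℤ) : ℝ := if 0 ≤ k then 1 else 0

lemma F0_I : I F0 := fun k => by unfold F0; split_ifs <;> simp

lemma tb_f0 : tb f0 = F0 := funext fun k => by
  obtain ⟨i, hi, h⟩ : ∃ i, min (k + 4).toNat 8 = i ∧ i ≤ 8 := ⟨_, rfl, min_le_right _ _⟩
  unfold tb tab F0
  rw [hi]
  split_ifs <;> interval_cases i <;> first | omega | norm_num [f0]

lemma small (h : chk d = true) (hF : I F) (hG : I G) (l1 : F0 ⊓ Ψ d F0 ≤ F) (l2 : F0 ⊓ Ψ d F0 ≤ G)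
    (u1 : F ≤ F0 ⊔ Ψ d F0) (u2 : G ≤ F0 ⊔ Ψ d F0) : Mer d F G := by
  simp only [chk, force_eq, Bool.and_eq_true] at h
  obtain ⟨⟨⟨⟨a, b⟩, c⟩, e⟩, f⟩ := h
  have p := le_inf (le_le b) (dn_le e)
  have r := sup_le (le_le a) (up_le c)
  rw [tb_f0] at p r
  exact run_mer _ f hF hG (p.trans l1) (p.trans l2) (u1.trans r) (u2.trans r)

section
variable {ρ a b : ℝ} (hd : 0 < d) (r0 : 0 ≤ ρ) (r1 : ρ ≤ 1) (hθ : (d : ℝ) ^ 2 * ρ ^ (d - 1) ≤ 1 / 10)
include hd r0 r1 hθ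

lemma pow_small : d * ρ ^ d ≤ 1 / (10 * d) := by
  have : (0 : ℝ) < d := Nat.cast_pos.2 hd
  have := pow_le_pow_of_le_one r0 r1 (d.sub_le 1)
  rw [le_div_iff₀ (by positivity)]
  nlinarith [mul_le_mul_of_nonneg_left this (sq_nonneg (d : ℝ))]

lemma hi (ha : a ∈ Icc (0 : ℝ) 1) (hb : b ∈ Icc (0 : ℝ) 1) (h1 : 1 - a ≤ ρ) (h2 : 1 - b ≤ ρ) :
    1 - 1 / (10 * d) ≤ Q d a b ^ d := by
  have p := pow_le_pow_left₀ (sub_nonneg.2 ha.2) h1 d
  have r := pow_le_pow_left₀ (sub_nonneg.2 hb.2) h2 d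
  have := one_add_mul_le_pow (a := Q d a b - 1) (by linarith [(Q_mem (d := d) ha hb).1]) d
  have s : -ρ ^ d ≤ Q d a b - 1 := by unfold Q; linarith
  rw [add_sub_cancel] at this
  linarith [pow_small hd r0 r1 hθ, mul_le_mul_of_nonneg_left s d.cast_nonneg]

lemma lo (ha : a ∈ Icc (0 : ℝ) 1) (hb : b ∈ Icc (0 : ℝ) 1) (h : Q d a b ≤ ρ) :
    Q d a b ^ d ≤ 1 / (10 * d) := by
  have : (1 : ℝ) ≤ d := Nat.one_le_cast.2 hd
  nlinarith [pow_le_pow_left₀ (Q_mem ha hb).1 h d, pow_small hd r0 r1 hθ, pow_nonneg r0 d]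

end

lemma Q_le (hd : 0 < d) {a b : ℝ} (ha : a ≤ 1 / (10 * d)) (hb : b ≤ 1) : Q d a b ≤ 11 / 20 := by
  have : (1 : ℝ) ≤ d := Nat.one_le_cast.2 hd
  have e : (d : ℝ) * (1 / (10 * d)) = 1 / 10 := by field_simp
  have := one_add_mul_le_pow (a := -a) (by nlinarith) d
  have := pow_nonneg (sub_nonneg.2 hb) d
  unfold Q
  rw [sub_eq_add_neg 1 a]
  nlinarith

lemma big (hd : 15 ≤ d) (hF : I F) (hG : I G) (l1 : F0 ⊓ Ψ d F0 ≤ F) (l2 : F0 ⊓ Ψ d F0 ≤ G)
    (u1 : F ≤ F0 ⊔ Ψ d F0) (u2 : G ≤ F0 ⊔ Ψ d F0) : Mer d F G := by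
  have hθ : (d : ℝ) ^ 2 * (11 / 20) ^ (d - 1) ≤ 1 / 10 := by
    clear l1 l2 u1 u2
    induction d, hd using Nat.le_induction with
    | base => norm_num
    | succ d hd ih =>
      obtain ⟨m, rfl⟩ := Nat.exists_eq_add_of_le' (show 1 ≤ d by omega)
      have : (14 : ℝ) ≤ m := by exact_mod_cast (show 14 ≤ m by omega)
      rw [Nat.add_sub_cancel] at ih ⊢
      rw [pow_succ (11 / 20 : ℝ)]
      push_cast at ih ⊢
      nlinarith [mul_nonneg (pow_nonneg (show (0 : ℝ) ≤ 11 / 20 by norm_num) m)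
        (show 0 ≤ ((m : ℝ) + 1) ^ 2 - (m + 1 + 1) ^ 2 * (11 / 20) by nlinarith)]
  have d0 : 0 < d := by omega
  have d1 : (15 : ℝ) ≤ d := by exact_mod_cast hd
  have e1 : 1 / (10 * (d : ℝ)) ≤ 1 / 10 := one_div_le_one_div_of_le (by norm_num) (by linarith)
  have e0 : 0 < 1 / (10 * (d : ℝ)) := by positivity
  let U : ℤ → ℝ := fun k => if 0 ≤ k then 1 else 1 / (10 * d)
  let L : ℤ → ℝ := fun k => if 0 ≤ k then 1 - 1 / (10 * d) else 0
  have hU : I U := fun k => by simp only [U]; split_ifs <;> constructor <;> linarith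
  have hL : I L := fun k => by simp only [L]; split_ifs <;> constructor <;> linarith
  have a1 : ∀ k, 0 ≤ k → 1 - (L (k - 1) + L k) / 2 ≤ 11 / 20 ∧ 1 - (L k + L (k + 1)) / 2 ≤ 11 / 20 :=
    fun k h => by
      have : L k = _ := if_pos h
      constructor <;> linarith [hL (k - 1), hL (k + 1)]
  have a2 : ∀ k, ¬ 0 ≤ k → Q d ((U (k - 1) + U k) / 2) ((U k + U (k + 1)) / 2) ≤ 11 / 20 := fun k h => by
    have : U k = _ := if_neg h
    have : U (k - 1) = _ := if_neg (by omega)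
    exact Q_le d0 (by linarith) (hU.av _ _).2
  have hl : L ≤ Ψ d L := fun k => by
    by_cases h : 0 ≤ k
    · exact (if_pos h).trans_le (hi d0 (by norm_num) (by norm_num) hθ (hL.av _ _) (hL.av _ _)
        (a1 k h).1 (a1 k h).2)
    · exact (if_neg h).trans_le (hL.Ψ k).1
  have hu : Ψ d U ≤ U := fun k => by
    by_cases h : 0 ≤ k
    · exact (hU.Ψ k).2.trans_eq (if_pos h).symm
    · exact (lo d0 (by norm_num) (by norm_num) hθ (hU.av _ _) (hU.av _ _) (a2 k h)).trans_eq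
        (if_neg h).symm
  have b1 : L ≤ F0 := fun k => by simp only [L, F0]; split_ifs <;> linarith
  have b2 : F0 ≤ U := fun k => by simp only [U, F0]; split_ifs <;> linarith
  have p := le_inf b1 (hl.trans (mono' hL F0_I b1))
  have r := sup_le b2 ((mono' F0_I hU b2).trans hu)
  refine mer (w := fun _ => 1) (C := 1) (r := 1 / 10) hF hG hL hU (p.trans l1) (p.trans l2)
    (u1.trans r) (u2.trans r) hl hu (by norm_num) (by norm_num) fun k => ⟨le_rfl, le_rfl, ?_⟩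
  have c1 := hL.av (k - 1) k
  have c2 := hL.av k (k + 1)
  have c3 := Q_mem (d := d) (hU.av (k - 1) k) (hU.av k (k + 1))
  refine le_trans ?_ (hθ.trans_eq (mul_one _).symm)
  have := sub_nonneg.2 c1.2
  have := sub_nonneg.2 c2.2
  have := c3.1
  by_cases h : 0 ≤ k
  · calc _ ≤ ((1 + 1) / 2 * (d : ℝ) * (11 / 20) ^ (d - 1) + (1 + 1) / 2 * d * (11 / 20) ^ (d - 1))
          / 2 * d * 1 ^ (d - 1) := by
            gcongr
            exacts [(a1 k h).1, (a1 k h).2, c3.2]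
      _ = _ := by rw [one_pow]; ring
  · calc _ ≤ ((1 + 1) / 2 * (d : ℝ) * 1 ^ (d - 1) + (1 + 1) / 2 * d * 1 ^ (d - 1))
          / 2 * d * (11 / 20) ^ (d - 1) := by
            gcongr
            exacts [by linarith [c1.1], by linarith [c2.1], a2 k h]
      _ = _ := by rw [one_pow]; ring

theorem merge (hd : 3 ≤ d) : Mer d (F0 ⊔ Ψ d F0) (F0 ⊓ Ψ d F0) := by
  have a : I (F0 ⊔ Ψ d F0) := fun k => ⟨le_sup_of_le_left (F0_I k).1, sup_le (F0_I k).2 (F0_I.Ψ k).2⟩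
  have b : I (F0 ⊓ Ψ d F0) := fun k => ⟨le_inf (F0_I k).1 (F0_I.Ψ k).1, inf_le_of_left_le (F0_I k).2⟩
  rcases le_or_gt 15 d with h | h
  · exact big h a b inf_le_sup le_rfl le_rfl inf_le_sup
  · refine small ?_ a b inf_le_sup le_rfl le_rfl inf_le_sup
    rcases eq_or_lt_of_le hd with rfl | h3
    · exact chk3
    rcases le_or_gt d 9 with h9 | h9
    · exact chk4 d (by simp only [List.mem_cons]; omega)
    · exact chk5 d (by simp only [List.mem_cons]; omega)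

end Pool.Agent.H.MP_63799c_pr
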