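import Pool.Agent.H.MP_63799c_pr.B

/-! Almost sure convergence of the value of the noisy min-max game. -/

open Filter Topology MeasureTheory ProbabilityTheory Set

namespace Pool.Agent.H.MP_63799c_pr

open Pool.Agent.Lib.helper3.MM

variable {d : ℕ} {Ω : Type*} [mΩ : MeasurableSpace Ω] {P : Measure Ω} [IsProbabilityMeasure P]
  {X : List (Fin d) → Ω → ℤ}

lemma ok : Ok (d := d) id fun v => {w | ∃ c l, l ++ c :: v = w} where
  mem c v := ⟨c, [], rfl⟩
  sub c v := fun _ ⟨e, l, h⟩ => ⟨c, l ++ [e], by simpa using h⟩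
  not v := fun ⟨c, l, h⟩ => by
    have := congrArg List.length h
    simp at this; omega
  dis v c c' h := disjoint_left.2 fun w p q => by
    have a : ∀ c, w ∈ insert (id (c :: v)) {w | ∃ e l, l ++ e :: c :: v = w} → c :: v <:+ w := by
      rintro c (rfl | ⟨e, l, rfl⟩)
      exacts [List.suffix_refl _, ⟨l ++ [e], by simp⟩]
    exact h (by simpa using (List.suffix_of_suffix_length_le (a _ p) (a _ q) (by simp)).eq_of_length (by simp))

lemma far (hd : 0 < d) (k : ℤ) (h : 2 ≤ k.natAbs) : Ψ d F0 k = F0 k := by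
  by_cases c : 0 ≤ k
  · simp [Ψ, Q, F0, c, show 1 ≤ k by omega, show 0 ≤ k + 1 by omega, hd.ne']
  · simp only [Ψ, Q, F0, if_neg c, if_neg (show ¬ 0 ≤ k - 1 by omega), if_neg (show ¬ 0 ≤ k + 1 by omega)]
    norm_num [hd.ne']

theorem main (hd : 3 ≤ d) (hm : ∀ v, Measurable (X v)) (hi : iIndepFun X P)
    (h1 : ∀ v, P.real {ω | X v ω = 1} = 1 / 2) (h2 : ∀ v, P.real {ω | X v ω = -1} = 1 / 2) :
    ∀ᵐ ω ∂P, ∃ L : ℤ, Tendsto (fun n => V (X · ω) (fun _ => 0) (2 * n) []) atTop (𝓝 L) := by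
  have d0 : 0 < d := by omega
  let Y : List (Fin d) → Ω → ℤ := fun v ω => V (X · ω) (fun _ => 0) (2 * 1) v
  have mY := mV (Z := X) (B := fun _ _ => 0) ok (fun _ => measurable_const) (2 * 1)
  have lY : ∀ (v : List (Fin d)) (x : ℤ), Even v.length → P.real {ω | Y v ω ≤ x} = Ψ d F0 (x / 2) :=
    law (B := fun _ _ => 0) d0 ok hm hi h1 h2 (fun _ => measurable_const) (fun v x _ => by
      by_cases h : 0 ≤ x
      · simp [F0, h, show 0 ≤ x / 2 by omega]
      · simp [F0, h, show ¬ 0 ≤ x / 2 by omega]) 1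
  have m1 : ∀ v, Measurable[M X {w | ∃ c l, l ++ c :: v = w}] fun ω => min 0 (Y v ω) := fun v =>
    @Measurable.min _ _ _ _ _ (M X _) _ _ _ _ _ measurable_const (mY v)
  have m2 : ∀ v, Measurable[M X {w | ∃ c l, l ++ c :: v = w}] fun ω => max 0 (Y v ω) := fun v =>
    @Measurable.max _ _ _ _ _ (M X _) _ _ _ _ _ measurable_const (mY v)
  have l1 := fun n x => law (F := F0 ⊔ Ψ d F0) d0 ok hm hi h1 h2 m1 (fun v x hv => by
    by_cases h : 0 ≤ x
    · simp [F0, h, show 0 ≤ x / 2 by omega, (F0_I.Ψ _).2]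
    · simp [F0, h, show ¬ 0 ≤ x / 2 by omega, (F0_I.Ψ _).1, lY v x hv]) n [] x (by simp)
  have l2 := fun n x => law (F := F0 ⊓ Ψ d F0) d0 ok hm hi h1 h2 m2 (fun v x hv => by
    by_cases h : 0 ≤ x
    · simp [F0, h, show 0 ≤ x / 2 by omega, (F0_I.Ψ _).2, lY v x hv]
    · simp [F0, h, show ¬ 0 ≤ x / 2 by omega, (F0_I.Ψ _).1]) n [] x (by simp)
  let lo : ℕ → Ω → ℤ := fun n ω => V (X · ω) (fun v => min 0 (Y v ω)) (2 * n) []
  let up : ℕ → Ω → ℤ := fun n ω => V (X · ω) (fun v => max 0 (Y v ω)) (2 * n) []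
  let E : ℕ → ℤ → Set Ω := fun n x => {ω | lo n ω ≤ x} \ {ω | up n ω ≤ x}
  have pE : ∀ n x, P.real (E n x) =
      (Ψ d)^[n] (F0 ⊔ Ψ d F0) (x / 2) - (Ψ d)^[n] (F0 ⊓ Ψ d F0) (x / 2) := fun n x => by
    rw [← l1, ← l2]
    exact measureReal_sdiff (fun ω h => le_trans (V_mono (fun _ => min_le_max) _ _) h)
      (M_le hm _ _ (mV ok m2 _ _ (measurableSet_Iic (a := x))))
  obtain ⟨N, C, r, r0, r1, hC⟩ := merge hd
  have bd : ∀ n, P.real (⋃ x, E (n + N) x) ≤ (4 * (n + N) + 10) * (C * r ^ n) := fun n => by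
    let T := Finset.Icc (-2 * (n + N) - 4 : ℤ) (2 * (n + N) + 5)
    have z : P (⋃ x ∉ T, E (n + N) x) = 0 := (measure_biUnion_null_iff (to_countable _)).2 fun x hx =>
      (measureReal_eq_zero_iff).1 (by
        have hx : ¬ (-2 * (n + N) - 4 ≤ x ∧ x ≤ 2 * (n + N) + 5) := fun c => hx (Finset.mem_Icc.2 c)
        rw [pE, supp (G := F0 ⊓ Ψ d F0) 2 (fun k l => by simp [far d0 k l]) (n + N) _ (by omega),
          sub_self])
    calc _ ≤ P.real ((⋃ x ∈ T, E (n + N) x) ∪ ⋃ x ∉ T, E (n + N) x) := measureReal_mono (by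
            intro ω h
            obtain ⟨x, hx⟩ := mem_iUnion.1 h
            by_cases c : x ∈ T
            exacts [.inl (mem_biUnion c hx), .inr (mem_iUnion₂.2 ⟨x, c, hx⟩)])
      _ ≤ ∑ x ∈ T, P.real (E (n + N) x) := (measureReal_union_le _ _).trans (by
            rw [Measure.real, Measure.real, z, ENNReal.toReal_zero, add_zero]
            exact measureReal_biUnion_finset_le _ _)
      _ ≤ T.card • (C * r ^ n) := Finset.sum_le_card_nsmul _ _ _ fun x _ => by
            rw [pE]; exact (le_abs_self _).trans (hC n _)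
      _ = _ := by
            rw [nsmul_eq_mul, show T.card = 4 * (n + N) + 10 by simp only [T, Int.card_Icc]; omega]
            push_cast; rfl
  have sm : Summable fun n => P.real (⋃ x, E n x) := by
    rw [← summable_nat_add_iff N]
    refine .of_nonneg_of_le (fun _ => measureReal_nonneg) bd ?_
    have a := summable_pow_mul_geometric_of_norm_lt_one 1 (r := r) (by rwa [Real.norm_of_nonneg r0])
    refine ((a.mul_left (4 * C)).add ((summable_geometric_of_lt_one r0 r1).mul_left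
      ((4 * N + 10) * C))).congr fun n => by ring
  have := ae_eventually_notMem (μ := P) (s := fun n => ⋃ x, E n x) (by
    simpa only [ofReal_measureReal (measure_ne_top _ _)] using sm.tsum_ofReal_ne_top)
  filter_upwards [this] with ω h
  obtain ⟨K, hK⟩ := eventually_atTop.1 h
  refine ⟨V (X · ω) (fun _ => 0) (2 * K) [], tendsto_atTop_of_eventually_const (i₀ := K) fun n l => ?_⟩
  induction n, l using Nat.le_induction with
  | base => rfl
  | succ n l ih =>
    rw [← ih, mul_add, V_add]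
    have a : up n ω ≤ lo n ω := le_of_not_gt fun c => hK n l (mem_iUnion.2 ⟨lo n ω, le_refl (lo n ω), c.not_ge⟩)
    exact le_antisymm ((V_mono (fun _ => le_max_right _ _) _ _).trans (a.trans
      (V_mono (fun _ => min_le_left _ _) _ _))) ((V_mono (fun _ => le_max_left _ _) _ _).trans (a.trans
      (V_mono (fun _ => min_le_right _ _) _ _)))

end Pool.Agent.H.MP_63799c_pr
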